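import Mathlib
import Pool.Agent.H16.Cef.Main

set_option autoImplicit false

open MeasureTheory Set

namespace Pool.Agent.Results.MP_cef980_nt.MaxArea

open Pool.Agent.H16.Cef

/-- Scott's question: the largest area of a planar convex body whose circumcentre is the origin and
whose only interior lattice point is the origin, with all extremal bodies. (Last clause: if the origin
is not required to be an interior point, the area is unbounded.) -/
theorem result :
    (∃ k : ℝ, 0.2399 < k ∧ k < 0.24 ∧ Th k = rho k ∧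
      (∀ k', 0 ≤ k' → k' ≤ 0.53 → Th k' = rho k' → k' = k) ∧
      4.04569 < F k ∧ F k < 4.0457 ∧
      IsGreatest {A : ℝ | ∃ K, Cls K ∧ A = (volume K).toReal} (F k) ∧
      (∀ K, (Cls K ∧ (volume K).toReal = F k) ↔ ∃ e f s, K = sym e f s '' Kst k) ∧
      (∀ e f s, IsMinDisk (sym e f s '' Kst k) 0 √(k ^ 2 + 2 * k + 2)) ∧
      1.5929 < √(k ^ 2 + 2 * k + 2) ∧ √(k ^ 2 + 2 * k + 2) < 1.593) ∧
    (∀ M : ℝ, ∃ K, Body K ∧ (∀ m n : ℤ, ((m : ℝ), (n : ℝ)) ∈ interior K → m = 0 ∧ n = 0) ∧
      M < (volume K).toReal) :=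
  main

end Pool.Agent.Results.MP_cef980_nt.MaxArea
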